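import Pool.Agent.H90.EH.Targets

set_option autoImplicit false
set_option linter.unusedSectionVars false

namespace Pool.Agent.H20.EH.EPS

open Finset
open scoped Classical
open Pool.Agent.H90.EH

theorem fin_eps {α : Type} (S : Finset α) (P : α → ℚ → Prop)
    (h : ∀ s ∈ S, ∃ e : ℚ, 0 < e ∧ ∀ ε : ℚ, 0 < ε → ε < e → P s ε) :
    ∃ e : ℚ, 0 < e ∧ ∀ ε : ℚ, 0 < ε → ε < e → ∀ s ∈ S, P s ε := by
  induction S using Finset.induction_on with
  | empty => exact ⟨1, one_pos, fun _ _ _ s hs => absurd hs (Finset.notMem_empty s)⟩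
  | insert a S ha ih =>
    obtain ⟨e1, he1, h1⟩ := ih fun s hs => h s (mem_insert_of_mem hs)
    obtain ⟨e2, he2, h2⟩ := h a (mem_insert_self a S)
    refine ⟨min e1 e2, lt_min he1 he2, fun ε h0 hε s hs => ?_⟩
    rcases mem_insert.1 hs with rfl | hs
    · exact h2 ε h0 (lt_of_lt_of_le hε (min_le_right _ _))
    · exact h1 ε h0 (lt_of_lt_of_le hε (min_le_left _ _)) s hs

theorem ne_eps (u v : ℚ) (hv : v ≠ 0) :
    ∃ e : ℚ, 0 < e ∧ ∀ ε : ℚ, 0 < ε → ε < e → u + ε * v ≠ 0 := by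
  have hav : 0 < |v| := abs_pos.2 hv
  by_cases hu : u = 0
  · subst hu
    refine ⟨1, one_pos, fun ε h0 _ => ?_⟩
    rw [zero_add]
    exact mul_ne_zero h0.ne' hv
  · have hau : 0 < |u| := abs_pos.2 hu
    refine ⟨|u| / |v|, div_pos hau hav, fun ε h0 hε h => ?_⟩
    rw [lt_div_iff₀ hav] at hε
    have h1 : |ε * v| < |u| := by rw [abs_mul, abs_of_pos h0]; exact hε
    have h2 : u = -(ε * v) := by linarith
    rw [h2, abs_neg] at h1
    exact lt_irrefl _ h1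

/-- EPS -/
theorem pf_EPS : T_EPS := by
  intro V _ _ A y q hy hq
  obtain ⟨e, he, h⟩ := fin_eps (A.powerset ×ˢ A)
    (fun p ε => IsB A p.1 → p.2 ∈ p.1 → co p.1 y p.2 + ε * co p.1 q p.2 ≠ 0) (by
      rintro ⟨B, b⟩ _
      by_cases hB : IsB A B ∧ b ∈ B
      · obtain ⟨e, he, h⟩ := ne_eps (co B y b) (co B q b) (hq.2 B hB.1 b hB.2)
        exact ⟨e, he, fun ε h0 h1 _ _ => h ε h0 h1⟩
      · exact ⟨1, one_pos, fun ε _ _ h1 h2 => absurd ⟨h1, h2⟩ hB⟩)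
  refine ⟨e, he, fun ε h0 hε => ⟨(Sp A).add_mem hy ((Sp A).smul_mem ε hq.1), fun B hB b hb => ?_⟩⟩
  have hyB : y ∈ Sp B := by rw [← hB.sp]; exact hy
  have hqB : q ∈ Sp B := by rw [← hB.sp]; exact hq.1
  rw [co_add hB.2.1 hyB ((Sp B).smul_mem ε hqB) hb, co_smul hB.2.1 hqB ε hb]
  exact h ε h0 hε (B, b) (mem_product.2 ⟨mem_powerset.2 hB.1, hB.1 hb⟩) hB hb

end Pool.Agent.H20.EH.EPS
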