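import Pool.Agent.H90.EH.Targets

set_option autoImplicit false
set_option linter.unusedSectionVars false

namespace Pool.Agent.H20.EH.HOE

open Finset
open scoped Classical
open Pool.Agent.H90.EH

/-- HOE -/
theorem pf_HOE (h1 : T_LPE) (h2 : T_EPS) (h3 : T_SGN) : T_HOE := by
  intro V _ _ A w ht q hht hw hqc hq y
  constructor
  · intro hy
    have hys : y ∈ Sp A := cone_sp hy
    obtain ⟨e1, he1, hE1⟩ := h2 V A y q hys hq
    obtain ⟨e2, he2, hE2⟩ := h3 V A y q hys hq
    have h0 : 0 < min e1 e2 / 2 := half_pos (lt_min he1 he2)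
    have hm : min e1 e2 / 2 < min e1 e2 := half_lt_self (lt_min he1 he2)
    obtain ⟨B, hB, hpos⟩ := h1 V A w ht (y + (min e1 e2 / 2) • q) hht hw
      (cone_add hy (cone_smul hqc h0.le)) (hE1 _ h0 (hm.trans_le (min_le_left _ _)))
    have hBB : IsB A B := by
      unfold Tri at hB
      exact (mem_filter.1 hB).2.1
    exact ⟨B, hB, (hE2 _ h0 (hm.trans_le (min_le_right _ _)) B hBB).1 hpos⟩
  · rintro ⟨B, hB, hyB⟩
    have hBA : B ⊆ A := by
      unfold Tri at hB
      exact mem_powerset.1 (mem_filter.1 hB).1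
    have hcB : y ∈ Cone B := by
      refine ⟨co B y, fun b hb => ?_, co_spec hyB.1⟩
      rcases hyB.2 b hb with h | h
      · exact h.le
      · exact h.1.ge
    exact cone_mono (fun b hb => cone_mem (hBA hb)) hcB

end Pool.Agent.H20.EH.HOE
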