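import Pool.Agent.H90.EH.Targets

set_option autoImplicit false
set_option linter.unusedSectionVars false

namespace Pool.Agent.H20.EH.INJ

open Finset
open scoped Classical
open Pool.Agent.H90.EH

theorem sum_ind {V : Type} [AddCommGroup V] [Module ℚ V] {k p : ℕ} (v : Fin k → Fin p → V)
    (j0 : Fin k) (i0 : Fin p) :
    ∑ j, ∑ i, (if j = j0 ∧ i = i0 then (1 : ℚ) else 0) • v j i = v j0 i0 := by
  rw [sum_eq_single j0, sum_eq_single i0]
  · simp
  · intro i _ hi
    simp [hi]
  · intro h; exact absurd (mem_univ _) h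
  · intro j _ hj
    apply sum_eq_zero
    intro i _
    simp [hj]
  · intro h; exact absurd (mem_univ _) h

theorem other {p : ℕ} (hp : 2 ≤ p) (i : Fin p) : ∃ i' : Fin p, i' ≠ i := by
  by_cases h : i.val = 0
  · exact ⟨⟨1, by omega⟩, fun h' => by
      have := congrArg Fin.val h'
      simp at this
      omega⟩
  · exact ⟨⟨0, by omega⟩, fun h' => by
      have := congrArg Fin.val h'
      simp at this
      omega⟩

/-- INJ -/
theorem pf_INJ : T_INJ := by
  intro V _ _ A AF k p v hp hO
  constructor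
  · intro j i j' i' h
    by_contra hne
    have hs : ∑ a, ∑ b, ((if a = j ∧ b = i then (1 : ℚ) else 0) -
        (if a = j' ∧ b = i' then (1 : ℚ) else 0)) • v a b = 0 := by
      simp only [sub_smul, sum_sub_distrib]
      rw [sum_ind v j i, sum_ind v j' i', h, sub_self]
    have hs' : ∑ a, ∑ b, ((if a = j ∧ b = i then (1 : ℚ) else 0) -
        (if a = j' ∧ b = i' then (1 : ℚ) else 0)) • v a b ∈ Sp AF := by
      rw [hs]; exact (Sp AF).zero_mem
    have hc := hO.ind (fun a b => (if a = j ∧ b = i then (1 : ℚ) else 0) -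
        (if a = j' ∧ b = i' then (1 : ℚ) else 0)) hs' j
    by_cases hj : j = j'
    · have hi : i ≠ i' := fun hi => hne ⟨hj, hi⟩
      have h1 := hc i i'
      simp only [hj, true_and, if_true] at h1
      rw [if_neg hi, if_neg (Ne.symm hi)] at h1
      norm_num at h1
    · obtain ⟨i2, hi2⟩ := other hp i
      have h1 := hc i i2
      rw [if_pos ⟨rfl, rfl⟩, if_neg (fun h => hj h.1), if_neg (fun h => hi2 h.2),
        if_neg (fun h => hj h.1)] at h1
      norm_num at h1
  · intro j i h
    have hs' : ∑ a, ∑ b, (if a = j ∧ b = i then (1 : ℚ) else 0) • v a b ∈ Sp AF := by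
      rw [sum_ind v j i]; exact h
    have hc := hO.ind (fun a b => if a = j ∧ b = i then (1 : ℚ) else 0) hs' j
    obtain ⟨i2, hi2⟩ := other hp i
    have h1 := hc i i2
    rw [if_pos ⟨rfl, rfl⟩, if_neg (fun h => hi2 h.2)] at h1
    norm_num at h1

end Pool.Agent.H20.EH.INJ
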